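import Pool.Agent.helper38.VA.Spec

/-!
# VA, row DSS: the element `s`
-/

set_option autoImplicit false

namespace Pool.Agent.VA

open Matrix Module Pool.Agent.PR Pool.Agent.H48SL

/-- The exponential of a matrix with `X * X * X = 0`. -/
theorem DSS_exp {n : ℕ} (X : MQ n) (h : X * X * X = 0) (u : Fin n → ℚ) :
    IsNilpotent.exp X *ᵥ u = u + X *ᵥ u + (1 / 2 : ℚ) • (X *ᵥ (X *ᵥ u)) := by
  have h3 : X ^ 3 = 0 := by rw [pow_succ, pow_two, h]
  rw [IsNilpotent.exp_eq_sum h3]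
  simp only [Finset.sum_range_succ, Finset.sum_range_zero, Nat.factorial, pow_zero, pow_one,
    pow_two, zero_add]
  rw [Matrix.add_mulVec, Matrix.add_mulVec]
  simp only [Matrix.smul_mulVec, Matrix.one_mulVec, ← Matrix.mulVec_mulVec]
  norm_num

/-- A vector killed by an element of `W`. -/
theorem DSS_ker {n : ℕ} (W : Submodule ℚ (MQ n)) (k φ : Fin n → ℚ) (hD : DT W k φ)
    (v : Fin n → ℚ) (hv : φ ⬝ᵥ v = 0) : ∃ X ∈ W, X ≠ 0 ∧ X *ᵥ v = 0 := by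
  let L : W →ₗ[ℚ] (Fin n → ℚ) :=
    { toFun := fun X => (X : MQ n) *ᵥ v
      map_add' := fun X Y => by rw [Submodule.coe_add, Matrix.add_mulVec]
      map_smul' := fun c X => by
        rw [Submodule.coe_smul, Matrix.smul_mulVec]
        rfl }
  by_contra hcon
  push Not at hcon
  have hinj : Function.Injective L := by
    refine (injective_iff_map_eq_zero L).2 fun X hX => ?_
    by_contra h
    exact hcon X X.2 (fun h' => h (Subtype.ext h')) hX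
  have hr : LinearMap.range L ≤ Submodule.span ℚ {k} := by
    rintro _ ⟨X, rfl⟩
    obtain ⟨c, hc⟩ := hD.Xu X X.2 v hv
    exact Submodule.mem_span_singleton.2 ⟨c, hc.symm⟩
  have h1 : finrank ℚ (LinearMap.range L) = finrank ℚ W := LinearMap.finrank_range_of_inj hinj
  have h2 := Submodule.finrank_mono hr
  rw [h1, finrank_span_singleton hD.k0, hD.dim] at h2
  omega

/-- row DSS -/
theorem DSS : DSS_stmt := by
  rintro n H W k φ - hlog hD ⟨m, hm, hmk, hmk'⟩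
  have hφX : ∀ X ∈ W, ∀ v, φ ⬝ᵥ (X *ᵥ v) = 0 := by
    intro X hX v
    rw [Matrix.dotProduct_mulVec, hD.fX X hX, zero_dotProduct]
  obtain ⟨X₀, hX₀W, hX₀, hX₀m⟩ := DSS_ker W k φ hD _ hmk
  obtain ⟨j, hj, a, ha, haX⟩ := hlog X₀ hX₀W
  have hj' : (j : ℚ) ≠ 0 := by exact_mod_cast hj.ne'
  set X : MQ n := (j : ℚ) • X₀ with hXdef
  have hXW : X ∈ W := W.smul_mem _ hX₀W
  have hX : X ≠ 0 := smul_ne_zero hj' hX₀
  have hXm : X *ᵥ (stdM ℚ m *ᵥ k) = 0 := by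
    rw [hXdef, Matrix.smul_mulVec, hX₀m, smul_zero]
  have hXXX : ∀ u, X *ᵥ (X *ᵥ (X *ᵥ u)) = 0 := by
    intro u
    obtain ⟨c, hc⟩ := hD.Xu X hXW (X *ᵥ u) (hφX X hXW u)
    rw [hc, Matrix.mulVec_smul, hD.Xk X hXW, smul_zero]
  have hX3 : X * X * X = 0 := by
    apply Matrix.ext_of_mulVec_single
    intro i
    rw [← Matrix.mulVec_mulVec, ← Matrix.mulVec_mulVec, hXXX, Matrix.zero_mulVec]
  have hexp := DSS_exp X hX3
  refine ⟨m⁻¹ * a * m, H.mul_mem (H.mul_mem (H.inv_mem hm) ha) hm, ?_, ?_⟩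
  · rw [stdM_mul, stdM_mul, ← Matrix.mulVec_mulVec, ← Matrix.mulVec_mulVec, haX, hexp, hXm,
      Matrix.mulVec_zero, smul_zero, add_zero, add_zero, Matrix.mulVec_mulVec, stdM_inv_mul,
      Matrix.one_mulVec]
  · intro c hc
    have hρ : ∀ u, (φ ᵥ* stdM ℚ m⁻¹) ⬝ᵥ (IsNilpotent.exp X *ᵥ u) =
        c * ((φ ᵥ* stdM ℚ m⁻¹) ⬝ᵥ u) := by
      intro u
      have h1 : φ ⬝ᵥ (stdM ℚ (m⁻¹ * a * m) *ᵥ (stdM ℚ m⁻¹ *ᵥ u)) =
          c * (φ ⬝ᵥ (stdM ℚ m⁻¹ *ᵥ u)) := by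
        rw [Matrix.dotProduct_mulVec, hc, smul_dotProduct, smul_eq_mul]
      rw [stdM_mul, stdM_mul, ← Matrix.mulVec_mulVec, Matrix.mulVec_mulVec u (stdM ℚ m),
        stdM_mul_inv, Matrix.one_mulVec, ← Matrix.mulVec_mulVec, haX, Matrix.dotProduct_mulVec φ,
        Matrix.dotProduct_mulVec φ (stdM ℚ m⁻¹) u] at h1
      exact h1
    have hρk : (φ ᵥ* stdM ℚ m⁻¹) ⬝ᵥ k ≠ 0 := by
      rw [← Matrix.dotProduct_mulVec]
      exact hmk'
    have hc1 : c = 1 := by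
      have h1 := hρ k
      rw [hexp, hD.Xk X hXW, Matrix.mulVec_zero, smul_zero, add_zero, add_zero] at h1
      have h2 : (c - 1) * ((φ ᵥ* stdM ℚ m⁻¹) ⬝ᵥ k) = 0 := by
        rw [sub_mul, ← h1, one_mul, sub_self]
      rcases mul_eq_zero.1 h2 with h3 | h3
      · linarith
      · exact absurd h3 hρk
    have hXX : X * X ≠ 0 := hD.an X hXW hX
    apply hXX
    apply Matrix.ext_of_mulVec_single
    intro i
    rw [← Matrix.mulVec_mulVec, Matrix.zero_mulVec]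
    set w : Fin n → ℚ := Pi.single i 1
    obtain ⟨d, hd⟩ := hD.Xu X hXW (X *ᵥ w) (hφX X hXW w)
    have h1 := hρ (X *ᵥ w)
    rw [hexp, hXXX, smul_zero, add_zero, dotProduct_add, hc1, one_mul, hd, dotProduct_smul,
      smul_eq_mul] at h1
    have h2 : d * ((φ ᵥ* stdM ℚ m⁻¹) ⬝ᵥ k) = 0 := by linarith
    rcases mul_eq_zero.1 h2 with h3 | h3
    · rw [hd, h3, zero_smul]
    · exact absurd h3 hρk

end Pool.Agent.VA
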